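import Pool.Agent.Seat68.VL.Pol

/-!
Scheduling a single vehicle on a line with release times and positive handling times is strongly
`NP`-hard.

The instances of the problem, the travel times, the completion time of an order of the jobs and the
decision problem `Schedulable` are the ones of the file `Pool.Agent.N582.VLDefs`.
-/

set_option autoImplicit false

namespace Pool.Agent.Results.MP_6e49ee_lc.StrongNPHardness

open Pool.Agent.NPC Pool.Agent.N582.VL

/-- The travel times are the same in both directions. -/
def Symmetric (I : Inst) : Prop := ∀ i, I.right i = I.left i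

/-- All the numbers of the instance (travel times, release times, handling times and the bound for
the completion time) are at most `V ^ 12`, where `V` is the number of the vertices of the path. -/
def SmallNumbers (I : Inst) : Prop :=
  (∀ i, I.right i ≤ (I.n + 1) ^ 12 ∧ I.left i ≤ (I.n + 1) ^ 12) ∧
  (∀ v, I.release v ≤ (I.n + 1) ^ 12 ∧ I.handling v ≤ (I.n + 1) ^ 12) ∧ I.bound ≤ (I.n + 1) ^ 12

/-- **Strong `NP`-hardness.** Every language in `NP` has a polynomial-time many-one reduction to
the scheduling problem, whose values are instances with symmetric travel times in which all the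
numbers are at most `V ^ 12`, where `V` is the number of the vertices. -/
theorem result : ∀ L : Set (List Bool), InNP L → ∃ f : List Bool → Inst,
    PolyTime (fun x => bits (f x)) ∧ (∀ x, Symmetric (f x) ∧ SmallNumbers (f x)) ∧
      ∀ x, x ∈ L ↔ Schedulable (f x) := by
  intro L hL
  have h : HardPr (fun I : Inst => Symmetric I ∧ SmallNumbers I) Schedulable := by
    refine HardPr.trans SSP648.hardPr_EC Seat68.VL.p_rd ?_ ?_
    · intro I hI
      exact ⟨fun _ => rfl, Seat68.VL.small_rd hI⟩
    · intro I _
      exact (Seat68.VL.schedulable_rd I).symm
  obtain ⟨f, hf, hp, hl⟩ := h L hL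
  exact ⟨f, PC.toPolyTime hf, hp, hl⟩

end Pool.Agent.Results.MP_6e49ee_lc.StrongNPHardness
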